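import Mathlib
import Pool.Agent.RAux.Final

/-!
# A positive proportion of the zeros of Riemann's auxiliary function lies to the right of the
critical line

Hence the proportion `q(T)` of the zeros with `β < 1/2` stays below a constant smaller than one,
and the limit of `q(T)` is not one.
-/

set_option autoImplicit false

open Filter Topology

namespace Pool.Agent.Results.MP_f05346_nt.PositiveProportionRight

/-- Riemann's auxiliary function: the integral of `x^(-s) e^(π i x²) / (e^(π i x) - e^(-π i x))`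
over the line of slope one through `1/2`, traversed from the upper right to the lower left. -/
noncomputable def R (s : ℂ) : ℂ :=
  -(1 + Complex.I) * ∫ t : ℝ,
    ((1/2 : ℂ) + (t : ℂ) * (1 + Complex.I)) ^ (-s) *
      Complex.exp ((Real.pi : ℂ) * Complex.I * ((1/2 : ℂ) + (t : ℂ) * (1 + Complex.I)) ^ 2) /
      (Complex.exp ((Real.pi : ℂ) * Complex.I * ((1/2 : ℂ) + (t : ℂ) * (1 + Complex.I))) -
        Complex.exp (-((Real.pi : ℂ) * Complex.I * ((1/2 : ℂ) + (t : ℂ) * (1 + Complex.I)))))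

/-- `N_R(T)`: the zeros with `0 < γ ≤ T`, counted with multiplicity. -/
noncomputable def NAll (T : ℝ) : ℝ :=
  ∑' ρ : {ρ : ℂ // R ρ = 0 ∧ 0 < ρ.im ∧ ρ.im ≤ T}, ((analyticOrderAt R ρ.1).toNat : ℝ)

/-- `N_R(β < 1/2, T)`, counted with multiplicity. -/
noncomputable def NLeft (T : ℝ) : ℝ :=
  ∑' ρ : {ρ : ℂ // R ρ = 0 ∧ 0 < ρ.im ∧ ρ.im ≤ T ∧ ρ.re < 1/2},
    ((analyticOrderAt R ρ.1).toNat : ℝ)

/-- The zeros with `0 < γ ≤ T` and `β > 1/2`, counted with multiplicity. -/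
noncomputable def NRight (T : ℝ) : ℝ :=
  ∑' ρ : {ρ : ℂ // R ρ = 0 ∧ 0 < ρ.im ∧ ρ.im ≤ T ∧ 1/2 < ρ.re},
    ((analyticOrderAt R ρ.1).toNat : ℝ)

/-- `q(T) = N_R(β < 1/2, T) / N_R(T)`. -/
noncomputable def q (T : ℝ) : ℝ := NLeft T / NAll T

open Pool.Agent.RAux in
lemma R_eq : R = auxR := by
  funext s
  simp only [R, auxR, lineR, rInt]
  push_cast
  rfl

open Pool.Agent.RAux in
lemma NAll_eq (T : ℝ) : NAll T = zc auxR {ρ : ℂ | 0 < ρ.im ∧ ρ.im ≤ T} := by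
  unfold NAll
  rw [R_eq]
  rfl

open Pool.Agent.RAux in
lemma NLeft_eq (T : ℝ) : NLeft T = zc auxR {ρ : ℂ | 0 < ρ.im ∧ ρ.im ≤ T ∧ ρ.re < 1 / 2} := by
  unfold NLeft
  rw [R_eq]
  rfl

open Pool.Agent.RAux in
lemma NRight_eq (T : ℝ) : NRight T = zc auxR {ρ : ℂ | 0 < ρ.im ∧ ρ.im ≤ T ∧ 1 / 2 < ρ.re} := by
  unfold NRight
  rw [R_eq]
  rfl

open Pool.Agent.RAux in
/-- For some `c > 0` and all large `T` at least `c N_R(T)` of the zeros up to height `T` have real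
part `> 1/2`, so `q(T) ≤ 1 - c`; in particular `q(T)` does not tend to `1`. -/
theorem result :
    (∃ c : ℝ, 0 < c ∧ ∀ᶠ T : ℝ in atTop, 0 < NAll T ∧ c * NAll T ≤ NRight T ∧ q T ≤ 1 - c) ∧
      ¬ Tendsto q atTop (𝓝 1) := by
  have hmain : ∃ c : ℝ, 0 < c ∧ ∀ᶠ T : ℝ in atTop,
      0 < NAll T ∧ c * NAll T ≤ NRight T ∧ q T ≤ 1 - c := by
    obtain ⟨c, T₀, hc, h⟩ := right_lower
    obtain ⟨C, T₁, hC, hcount⟩ := auxR_count
    refine ⟨c / C, by positivity, ?_⟩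
    filter_upwards [eventually_ge_atTop T₀, eventually_ge_atTop T₁, eventually_gt_atTop 1]
      with T h0 h1 h2
    have hfin : {ρ : ℂ | auxR ρ = 0 ∧ ρ ∈ {ρ : ℂ | 0 < ρ.im ∧ ρ.im ≤ T}}.Finite :=
      (auxR_zeros_finite T).subset (fun ρ hρ => ⟨hρ.1, hρ.2.1, hρ.2.2⟩)
    have hadd := zc_add_le auxR {ρ : ℂ | 0 < ρ.im ∧ ρ.im ≤ T}
      {ρ : ℂ | 0 < ρ.im ∧ ρ.im ≤ T ∧ ρ.re < 1 / 2} {ρ : ℂ | 0 < ρ.im ∧ ρ.im ≤ T ∧ 1 / 2 < ρ.re}
      (fun ρ hρ => ⟨hρ.1, hρ.2.1⟩) (fun ρ hρ => ⟨hρ.1, hρ.2.1⟩)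
      (by
        rw [Set.disjoint_left]
        intro ρ h1 h2
        exact absurd h1.2.2 (not_lt.mpr h2.2.2.le)) hfin
    have hr := h T h0
    have hct := hcount T h1
    have hlog : 0 < Real.log T := Real.log_pos h2
    have hT0 : 0 < T := by linarith
    have hpos : 0 < c * T * Real.log T := by positivity
    rw [← NAll_eq, ← NLeft_eq, ← NRight_eq] at hadd
    rw [← NRight_eq] at hr
    rw [← NAll_eq] at hct
    have hL0 : 0 ≤ NLeft T := by rw [NLeft_eq]; exact zc_nonneg _ _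
    have hApos : 0 < NAll T := by linarith
    have h3 : c / C * NAll T ≤ NRight T := by
      refine le_trans ?_ hr
      calc c / C * NAll T ≤ c / C * (C * T * Real.log T) := by gcongr
        _ = c * T * Real.log T := by field_simp
    refine ⟨hApos, h3, ?_⟩
    unfold q
    rw [div_le_iff₀ hApos]
    linarith
  refine ⟨hmain, fun ht => ?_⟩
  obtain ⟨c, hc, h⟩ := hmain
  have h1 := le_of_tendsto ht (h.mono fun T hT => hT.2.2)
  linarith

end Pool.Agent.Results.MP_f05346_nt.PositiveProportionRight
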